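import Pool.Agent.Q49.NA.Cone

/-!
# MP_1c24b6_ag: a semialgebraic set which is locally connected by analytic paths but is not an
`(𝒩, 0)`-approximation target space
-/

set_option autoImplicit false

namespace Pool.Agent.Results.MP_1c24b6_ag.ConeNotATS

open Q49.NA

/-- The semialgebraic set `T = {(u, v, w) ∈ ℝ³ : w² = u⁴ + v⁴, w ≥ 0}` is locally connected by
analytic paths, but it is not an `(𝒩, 0)`-ats. -/
theorem result : ∃ (n : ℕ) (T : Set (Fin n → ℝ)), 1 ≤ n ∧ T.Nonempty ∧ Semialg T ∧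
    LocallyConnectedByAnalyticPaths T ∧ ¬ IsATS T :=
  ⟨3, T, by norm_num, ⟨0, by simp [T]⟩, semialg_T, loc_T, not_ats⟩

end Pool.Agent.Results.MP_1c24b6_ag.ConeNotATS
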